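import Pool.Agent.U483.KS.Main

/-!
# The Künneth projectors and the Grothendieck group of varieties
-/

set_option autoImplicit false

open CategoryTheory CategoryTheory.Limits AlgebraicGeometry MonoidalCategory Pool.Agent.Y116.UV
  Pool.Agent.U483.KM Pool.Agent.U483.GU

namespace Pool.Agent.U483.KS

universe w x

section

variable {k F E : Type} [Field k] [Field F] [Field E] {𝓜 : Type w} [Category.{x} 𝓜]
  [Preadditive 𝓜] [Linear F 𝓜] [HasBinaryBiproducts 𝓜] (V : ℤ → 𝓜 ⥤ ModuleCat.{0} E)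
  [∀ i, (V i).Additive]

omit [Linear F 𝓜] [HasBinaryBiproducts 𝓜] in
lemma proj_retract {A B : 𝓜} (s : A ⟶ B) (r : B ⟶ A) (h : s ≫ r = 𝟙 A) (p : B ⟶ B) (i : ℤ) :
    ((V i).map p = 𝟙 _ → (V i).map (s ≫ p ≫ r) = 𝟙 _) ∧
    ((V i).map p = 0 → (V i).map (s ≫ p ≫ r) = 0) := by
  constructor
  · intro h1
    rw [Functor.map_comp, Functor.map_comp, h1, Category.id_comp, ← Functor.map_comp, h,
      CategoryTheory.Functor.map_id]
  · intro h1
    rw [Functor.map_comp, Functor.map_comp, h1, zero_comp, comp_zero]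

omit [Linear F 𝓜] in
lemma proj_sum {A B : 𝓜} (p : A ⟶ A) (q : B ⟶ B) (i : ℤ) :
    ((V i).map p = 𝟙 _ → (V i).map q = 𝟙 _ →
      (V i).map (biprod.fst ≫ p ≫ biprod.inl + biprod.snd ≫ q ≫ biprod.inr : A ⊞ B ⟶ A ⊞ B) = 𝟙 _) ∧
    ((V i).map p = 0 → (V i).map q = 0 →
      (V i).map (biprod.fst ≫ p ≫ biprod.inl + biprod.snd ≫ q ≫ biprod.inr : A ⊞ B ⟶ A ⊞ B) = 0) := by
  constructor
  · intro h1 h2
    rw [Functor.map_add, Functor.map_comp, Functor.map_comp, Functor.map_comp, Functor.map_comp, h1,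
      h2, Category.id_comp, Category.id_comp, ← Functor.map_comp, ← Functor.map_comp,
      ← Functor.map_add, biprod.total, CategoryTheory.Functor.map_id]
  · intro h1 h2
    rw [Functor.map_add, Functor.map_comp, Functor.map_comp, Functor.map_comp, Functor.map_comp, h1,
      h2, zero_comp, zero_comp, comp_zero, comp_zero, add_zero]

omit [Linear F 𝓜] in
theorem thick_kunneth : IsThick (KunnethC V) where
  zero A h i := ⟨0, by
    rw [← CategoryTheory.Functor.map_id, h.eq_of_src (𝟙 A) 0], fun j _ => Functor.map_zero _ _ _⟩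
  retract s r h hB i := by
    obtain ⟨p, h1, h2⟩ := hB i
    exact ⟨s ≫ p ≫ r, (proj_retract V s r h p i).1 h1, fun j hj => (proj_retract V s r h p j).2 (h2 j hj)⟩
  sum A B hA hB i := by
    obtain ⟨p, h1, h2⟩ := hA i
    obtain ⟨q, h3, h4⟩ := hB i
    exact ⟨_, (proj_sum V p q i).1 h1 h3, fun j hj => (proj_sum V p q j).2 (h2 j hj) (h4 j hj)⟩

omit [Linear F 𝓜] in
theorem thick_sign : IsThick (SignC V) where
  zero A h := ⟨0, fun i _ => by
    rw [← CategoryTheory.Functor.map_id, h.eq_of_src (𝟙 A) 0], fun j _ => Functor.map_zero _ _ _⟩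
  retract s r h hB := by
    obtain ⟨p, h1, h2⟩ := hB
    exact ⟨s ≫ p ≫ r, fun i hi => (proj_retract V s r h p i).1 (h1 i hi),
      fun j hj => (proj_retract V s r h p j).2 (h2 j hj)⟩
  sum A B hA hB := by
    obtain ⟨p, h1, h2⟩ := hA
    obtain ⟨q, h3, h4⟩ := hB
    exact ⟨_, fun i hi => (proj_sum V p q i).1 (h1 i hi) (h3 i hi),
      fun j hj => (proj_sum V p q j).2 (h2 j hj) (h4 j hj)⟩

variable {V} {H : PureMotives.{w, x} k F 𝓜}

theorem kunneth_prod (Kn : Kunneth H V) {X Y : Sch k} (z : Prd X Y)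
    (hX : SmoothProjective X) (hY : SmoothProjective Y) (h1 : KunnethC V (H.h X))
    (h2 : KunnethC V (H.h Y)) : KunnethC V (H.h z.Z) := by
  classical
  obtain ⟨e⟩ := Kn.exterior z hX hY
  choose u hu hu' using h1
  choose v hv hv' using h2
  obtain ⟨N, hN⟩ := Kn.bounded X hX
  intro n
  refine ⟨∑ a ∈ Finset.Icc (0 : ℤ) N, e.times (u a) (v (n - a)), ?_, ?_⟩
  · refine e.ext n _ _ fun b => ?_
    rw [Functor.map_sum, Preadditive.comp_sum, Category.comp_id]
    by_cases hb : b ∈ Finset.Icc (0 : ℤ) N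
    · rw [Finset.sum_eq_single b]
      · rw [e.natural _ _ n b, hu, hv]
        simp
      · intro a _ hab
        rw [e.natural _ _ n b, hu' a b (Ne.symm hab)]
        simp
      · intro h
        exact absurd hb h
    · have hx : IsZero ((V b).obj (H.h X)) := hN b (by rw [Finset.mem_Icc] at hb; omega)
      have h3 : e.cup n b = 0 := by
        rw [← Category.id_comp (e.cup n b), ← id_tensorHom_id, hx.eq_of_src (𝟙 _) 0]
        simp
      rw [h3]
      simp
  · intro m hm
    refine e.ext m _ _ fun b => ?_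
    rw [Functor.map_sum, Preadditive.comp_sum, comp_zero]
    refine Finset.sum_eq_zero fun a _ => ?_
    rw [e.natural _ _ m b]
    by_cases hab : b = a
    · subst hab
      rw [hv' (n - b) (m - b) (by omega)]
      simp
    · rw [hu' a b hab]
      simp

theorem sign_prod (Kn : Kunneth H V) {X Y : Sch k} (z : Prd X Y)
    (hX : SmoothProjective X) (hY : SmoothProjective Y) (h1 : SignC V (H.h X))
    (h2 : SignC V (H.h Y)) : SignC V (H.h z.Z) := by
  obtain ⟨e⟩ := Kn.exterior z hX hY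
  obtain ⟨u, hu, hu'⟩ := h1
  obtain ⟨v, hv, hv'⟩ := h2
  have hsub : ∀ {W : 𝓜} (f : W ⟶ W) (i : ℤ), (V i).map (𝟙 W - f) = 𝟙 _ - (V i).map f := by
    intro W f i
    rw [Functor.map_sub, CategoryTheory.Functor.map_id]
  refine ⟨e.times u v + e.times (𝟙 _ - u) (𝟙 _ - v), fun n hn => ?_, fun n hn => ?_⟩
  · refine e.ext n _ _ fun b => ?_
    rw [Functor.map_add, Preadditive.comp_add, e.natural _ _ n b, e.natural _ _ n b, hsub, hsub, Category.comp_id]
    by_cases hb : Even b
    · rw [hu b hb, hv _ (hn.sub hb)]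
      simp
    · rw [hu' b hb, hv' _ (fun h => hb (by simpa using hn.sub h))]
      simp
  · refine e.ext n _ _ fun b => ?_
    rw [Functor.map_add, Preadditive.comp_add, e.natural _ _ n b, e.natural _ _ n b, hsub, hsub, comp_zero]
    by_cases hb : Even b
    · rw [hu b hb, hv' _ (fun h => hn (by simpa using h.add hb))]
      simp
    · rw [hu' b hb, hv _ (by
        rw [Int.not_even_iff_odd] at hb hn
        exact hn.sub_odd hb)]
      simp

end

end Pool.Agent.U483.KS
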