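import Pool.Agent.U483.KS.Defs
import Pool.Agent.U483.KP.Prd

/-!
# Classes of motives and the Grothendieck group of varieties
-/

set_option autoImplicit false

open CategoryTheory CategoryTheory.Limits AlgebraicGeometry Pool.Agent.Y116.UV
  Pool.Agent.U483.KM Pool.Agent.U483.GU

namespace Pool.Agent.U483.KS

universe w x

section

variable {F : Type} [Field F] {𝓜 : Type w} [Category.{x} 𝓜] [Preadditive 𝓜] [Linear F 𝓜]
  [HasBinaryBiproducts 𝓜] {P : 𝓜 → Prop}

/-- the morphisms `A ⟶ M` which factor through a member of `P` -/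
def fact (F : Type) [Field F] [Linear F 𝓜] (hP : IsThick P) (hz : ∃ C : 𝓜, IsZero C) (M A : 𝓜) :
    Submodule F (A ⟶ M) where
  carrier := {f | ∃ (C : 𝓜) (u : A ⟶ C) (v : C ⟶ M), P C ∧ u ≫ v = f}
  zero_mem' := by
    obtain ⟨C, hC⟩ := hz
    exact ⟨C, 0, 0, hP.zero C hC, by simp⟩
  add_mem' := by
    rintro _ _ ⟨C, u, v, hC, rfl⟩ ⟨C', u', v', hC', rfl⟩
    exact ⟨C ⊞ C', biprod.lift u u', biprod.desc v v', hP.sum _ _ hC hC', by simp⟩
  smul_mem' := by
    rintro c _ ⟨C, u, v, hC, rfl⟩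
    exact ⟨C, c • u, v, hC, by simp⟩

lemma mem_fact (hP : IsThick P) (hz : ∃ C : 𝓜, IsZero C) {M A : 𝓜} {f : A ⟶ M} :
    f ∈ fact F hP hz M A ↔ ∃ (C : 𝓜) (u : A ⟶ C) (v : C ⟶ M), P C ∧ u ≫ v = f := Iff.rfl

/-- the dimension of the space of morphisms modulo the morphisms which factor through `P` -/
noncomputable def dm (F : Type) [Field F] [Linear F 𝓜] (hP : IsThick P) (hz : ∃ C : 𝓜, IsZero C)
    (M A : 𝓜) : ℤ :=
  (Module.finrank F (A ⟶ M) : ℤ) - Module.finrank F (fact F hP hz M A)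

variable (hP : IsThick P) (hz : ∃ C : 𝓜, IsZero C) (hfin : ∀ A B : 𝓜, Module.Finite F (A ⟶ B))

omit [Linear F 𝓜] [HasBinaryBiproducts 𝓜] in
lemma finrank_prod_sub {V W : Type x} [AddCommGroup V] [Module F V] [AddCommGroup W] [Module F W]
    [Module.Finite F V] [Module.Finite F W] (p : Submodule F V) (q : Submodule F W) :
    Module.finrank F (p.prod q) = Module.finrank F p + Module.finrank F q := by
  let e : (p.prod q) ≃ₗ[F] p × q :=
    { toFun := fun t => (⟨t.1.1, t.2.1⟩, ⟨t.1.2, t.2.2⟩)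
      invFun := fun t => ⟨(t.1.1, t.2.1), t.1.2, t.2.2⟩
      left_inv := fun _ => rfl
      right_inv := fun _ => rfl
      map_add' := fun _ _ => rfl
      map_smul' := fun _ _ => rfl }
  rw [e.finrank_eq, Module.finrank_prod]

lemma dm_iso (M : 𝓜) {A B : 𝓜} (e : A ≅ B) : dm F hP hz M A = dm F hP hz M B := by
  let l : (A ⟶ M) ≃ₗ[F] (B ⟶ M) := Linear.homCongr F e (Iso.refl M)
  have hl : ∀ f, l f = e.inv ≫ f := fun f => by simp [l, Linear.homCongr]
  have h1 : Module.finrank F (fact F hP hz M A) = Module.finrank F (fact F hP hz M B) := by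
    have h2 : (fact F hP hz M A).map (l : (A ⟶ M) →ₗ[F] (B ⟶ M)) = fact F hP hz M B := by
      ext f
      constructor
      · rintro ⟨_, ⟨C, u, v, hC, rfl⟩, rfl⟩
        refine ⟨C, e.inv ≫ u, v, hC, ?_⟩
        change _ = l (u ≫ v)
        rw [hl, Category.assoc]
      · rintro ⟨C, u, v, hC, rfl⟩
        refine ⟨e.hom ≫ u ≫ v, ⟨C, e.hom ≫ u, v, hC, by simp⟩, ?_⟩
        change l _ = _
        rw [hl, e.inv_hom_id_assoc]
    rw [← h2, LinearEquiv.finrank_map_eq l]
  rw [dm, dm, l.finrank_eq, h1]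

include hfin in
lemma dm_sum (M A B : 𝓜) : dm F hP hz M (A ⊞ B) = dm F hP hz M A + dm F hP hz M B := by
  let l : (A ⊞ B ⟶ M) ≃ₗ[F] (A ⟶ M) × (B ⟶ M) :=
    { toFun := fun f => (biprod.inl ≫ f, biprod.inr ≫ f)
      invFun := fun f => biprod.desc f.1 f.2
      left_inv := fun f => by ext <;> simp
      right_inv := fun f => by ext <;> simp
      map_add' := fun f g => by ext <;> simp
      map_smul' := fun c f => by ext <;> simp }
  have hf1 := hfin A M
  have hf2 := hfin B M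
  have h2 : (fact F hP hz M (A ⊞ B)).map (l : (A ⊞ B ⟶ M) →ₗ[F] _) =
      (fact F hP hz M A).prod (fact F hP hz M B) := by
    ext ⟨f, g⟩
    constructor
    · rintro ⟨_, ⟨C, u, v, hC, rfl⟩, h3⟩
      have h4 : (biprod.inl ≫ u ≫ v, biprod.inr ≫ u ≫ v) = (f, g) := h3
      rw [Prod.mk.injEq] at h4
      exact ⟨⟨C, biprod.inl ≫ u, v, hC, by rw [Category.assoc, h4.1]⟩,
        ⟨C, biprod.inr ≫ u, v, hC, by rw [Category.assoc, h4.2]⟩⟩
    · rintro ⟨⟨C, u, v, hC, h3⟩, ⟨C', u', v', hC', h4⟩⟩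
      refine ⟨biprod.desc f g, ⟨C ⊞ C', biprod.desc (u ≫ biprod.inl) (u' ≫ biprod.inr),
        biprod.desc v v', hP.sum _ _ hC hC', ?_⟩, ?_⟩
      · ext
        · simpa using h3
        · simpa using h4
      · change (biprod.inl ≫ biprod.desc f g, biprod.inr ≫ biprod.desc f g) = (f, g)
        simp
  have h3 : Module.finrank F (fact F hP hz M (A ⊞ B)) =
      Module.finrank F (fact F hP hz M A) + Module.finrank F (fact F hP hz M B) := by
    rw [← LinearEquiv.finrank_map_eq l (fact F hP hz M (A ⊞ B)), h2, finrank_prod_sub]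
  rw [dm, dm, dm, l.finrank_eq, h3, Module.finrank_prod]
  push_cast
  ring

end

section

variable {k F : Type} [Field k] [Field F] {𝓜 : Type w} [Category.{x} 𝓜]
  [Preadditive 𝓜] [Linear F 𝓜] [HasBinaryBiproducts 𝓜] (H : PureMotives.{w, x} k F 𝓜)
  {P : 𝓜 → Prop}

/-- If a multiple of the class of `X` is a combination of classes of smooth projective schemes with motives in
the thick class `P` then the motive of `X` is in `P`. -/
theorem mem_of_class (hP : IsThick P) (hz : ∃ C : 𝓜, IsZero C) {X : Var k}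
    (hX : SmoothProjective X.1) {n : ℤ} (hn : n ≠ 0)
    (h : n • cls X ∈ AddSubgroup.closure
      {c | ∃ Y : Var k, SmoothProjective Y.1 ∧ P (H.h Y.1) ∧ c = cls Y}) : P (H.h X.1) := by
  obtain ⟨χ, hχ⟩ := H.measure (dm F hP hz (H.h X.1)) (fun A B ⟨e⟩ => dm_iso hP hz _ e)
    (fun A B => dm_sum hP hz H.finite _ A B)
  have hker : AddSubgroup.closure
      {c | ∃ Y : Var k, SmoothProjective Y.1 ∧ P (H.h Y.1) ∧ c = cls Y} ≤ χ.ker := by
    rw [AddSubgroup.closure_le]
    rintro _ ⟨Y, hY, hPY, rfl⟩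
    change χ (cls Y) = 0
    rw [hχ Y hY, dm]
    have h1 : fact F hP hz (H.h X.1) (H.h Y.1) = ⊤ := by
      rw [Submodule.eq_top_iff']
      intro f
      exact ⟨H.h Y.1, 𝟙 _, f, hPY, by simp⟩
    rw [h1, finrank_top, sub_self]
  have h0 : χ (n • cls X) = 0 := hker h
  rw [map_zsmul, hχ X hX, smul_eq_mul] at h0
  have h1 : dm F hP hz (H.h X.1) (H.h X.1) = 0 := (mul_eq_zero.1 h0).resolve_left hn
  have hfin := H.finite (H.h X.1) (H.h X.1)
  have h2 : Module.finrank F (fact F hP hz (H.h X.1) (H.h X.1)) =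
      Module.finrank F (H.h X.1 ⟶ H.h X.1) := by
    rw [dm, sub_eq_zero] at h1
    exact_mod_cast h1.symm
  have h3 := Submodule.eq_top_of_finrank_eq h2
  obtain ⟨C, u, v, hC, huv⟩ : 𝟙 (H.h X.1) ∈ fact F hP hz (H.h X.1) (H.h X.1) := by
    rw [h3]
    trivial
  exact hP.retract u v huv hC

lemma pr_iso_prod {X Y Z : Sch k} {p : Z ⟶ X} {r : Z ⟶ Y} (h : IsProd p r) :
    ∃ e : Z ≅ (KP.pr Y).obj X, True := by
  obtain ⟨e⟩ := KP.iso_of_isProd h
  exact ⟨e, trivial⟩

end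

end Pool.Agent.U483.KS
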