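import Pool.Agent.U483.KM.Defs
import Pool.Agent.U483.GU.HDefs

/-!
# Motives for homological equivalence and the Grothendieck group of varieties: definitions

`𝓜` is the category of the pure motives over a (perfect) field `k` modulo homological equivalence for a Weil
cohomology theory with coefficients in the field `E`, where the correspondences have coefficients
in the field `F ⊆ E`. The spaces of morphisms are finite-dimensional over `F` for `F = E`, and for
`F = ℚ` if `k` has characteristic zero (compare with Betti cohomology). The object `h X` is the motive of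
the smooth projective scheme `X`, and `V i` is the cohomology of degree `i`, a functor on `𝓜`.
-/

set_option autoImplicit false

open CategoryTheory CategoryTheory.Limits AlgebraicGeometry MonoidalCategory Pool.Agent.Y116.UV
  Pool.Agent.U483.KM Pool.Agent.U483.GU

namespace Pool.Agent.U483.KS

universe w x

/-- The class `P` contains the zero objects and is closed under direct factors and direct sums. -/
structure IsThick {𝓜 : Type w} [Category.{x} 𝓜] [Preadditive 𝓜] [HasBinaryBiproducts 𝓜]
    (P : 𝓜 → Prop) : Prop where
  zero : ∀ A : 𝓜, IsZero A → P A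
  retract : ∀ {A B : 𝓜} (s : A ⟶ B) (r : B ⟶ A), s ≫ r = 𝟙 A → P B → P A
  sum : ∀ A B : 𝓜, P A → P B → P (A ⊞ B)

/-- Motives with finite-dimensional spaces of morphisms, and the theorem of Gillet and Soulé (Guillén and Navarro
Aznar; Bittner; Bondarko): every additive function on the objects of `𝓜` extends to the Grothendieck
group of varieties. -/
structure PureMotives (k F : Type) [Field k] [Field F] (𝓜 : Type w) [Category.{x} 𝓜]
    [Preadditive 𝓜] [Linear F 𝓜] [HasBinaryBiproducts 𝓜] where
  /-- the motive of a smooth projective scheme -/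
  h : Sch k → 𝓜
  finite : ∀ A B : 𝓜, Module.Finite F (A ⟶ B)
  measure : ∀ f : 𝓜 → ℤ, (∀ A B, Nonempty (A ≅ B) → f A = f B) →
    (∀ A B, f (A ⊞ B) = f A + f B) →
    ∃ χ : K0 k →+ ℤ, ∀ X : Var k, SmoothProjective X.1 → χ (cls X) = f (h X.1)

/-- A product `Z` of `X` and `Y`. -/
structure Prd {k : Type} [Field k] (X Y : Sch k) where
  /-- the product -/
  Z : Sch k
  /-- the first projection -/
  p : Z ⟶ X
  /-- the second projection -/
  r : Z ⟶ Y
  isProd : IsProd p r

section

variable {E : Type} [Field E] {𝓜 : Type w} [Category.{x} 𝓜]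

/-- Exterior products of cohomology classes of the degrees `a` and `n - a`, for the motives `A` and `B` of two
schemes and the motive `C` of their product. -/
abbrev Cups (V : ℤ → 𝓜 ⥤ ModuleCat.{0} E) (A B C : 𝓜) : Type :=
  ∀ n a : ℤ, (V a).obj A ⊗ (V (n - a)).obj B ⟶ (V n).obj C

/-- The exterior product `t` of the correspondences `u` and `v` acts on exterior products of classes as the
tensor product of `u` and `v`. -/
def Acts {V : ℤ → 𝓜 ⥤ ModuleCat.{0} E} {A B C : 𝓜} (c : Cups V A B C) (u : A ⟶ A) (v : B ⟶ B)
    (t : C ⟶ C) : Prop :=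
  ∀ n a : ℤ, c n a ≫ (V n).map t = ((V a).map u ⊗ₘ (V (n - a)).map v) ≫ c n a

/-- Exterior products for the motives `A` and `B` of two schemes and the motive `C` of their product: of
cohomology classes (`cup`; together they generate the cohomology of the product), and of
correspondences (`times`). -/
structure Exterior (V : ℤ → 𝓜 ⥤ ModuleCat.{0} E) (A B C : 𝓜) where
  /-- the exterior product of classes -/
  cup : Cups V A B C
  /-- the exterior product of correspondences -/
  times : (A ⟶ A) → (B ⟶ B) → (C ⟶ C)
  natural : ∀ (u : A ⟶ A) (v : B ⟶ B), Acts cup u v (times u v)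
  ext : ∀ (n : ℤ) (f g : (V n).obj C ⟶ (V n).obj C), (∀ a, cup n a ≫ f = cup n a ≫ g) → f = g

end

section

variable {k F E : Type} [Field k] [Field F] [Field E] {𝓜 : Type w} [Category.{x} 𝓜]
  [Preadditive 𝓜] [Linear F 𝓜] [HasBinaryBiproducts 𝓜]

/-- Products of smooth projective schemes are smooth projective, and the Künneth formula. -/
structure Kunneth (H : PureMotives.{w, x} k F 𝓜) (V : ℤ → 𝓜 ⥤ ModuleCat.{0} E) : Prop where
  smooth : ∀ {X Y : Sch k} (z : Prd X Y), SmoothProjective X → SmoothProjective Y →
    SmoothProjective z.Z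
  bounded : ∀ X : Sch k, SmoothProjective X → ∃ n : ℕ, ∀ i : ℤ, (i < 0 ∨ n < i) →
    IsZero ((V i).obj (H.h X))
  exterior : ∀ {X Y : Sch k} (z : Prd X Y), SmoothProjective X → SmoothProjective Y →
    Nonempty (Exterior V (H.h X) (H.h Y) (H.h z.Z))

/-- The Künneth projectors of `A` (the projections of the cohomology of `A` onto the part of degree `i`) are
given by morphisms of motives. -/
def KunnethC (V : ℤ → 𝓜 ⥤ ModuleCat.{0} E) (A : 𝓜) : Prop :=
  ∀ i : ℤ, ∃ p : A ⟶ A, (V i).map p = 𝟙 _ ∧ ∀ j : ℤ, j ≠ i → (V j).map p = 0

/-- The projection of the cohomology of `A` onto the part of even degree is given by a morphism. -/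
def SignC (V : ℤ → 𝓜 ⥤ ModuleCat.{0} E) (A : 𝓜) : Prop :=
  ∃ p : A ⟶ A, (∀ i : ℤ, Even i → (V i).map p = 𝟙 _) ∧ ∀ i : ℤ, ¬ Even i → (V i).map p = 0

/-- The least class of schemes which contains `B` and is closed under products. -/
inductive Products (B : Sch k → Prop) : Sch k → Prop
  | base (X : Sch k) : B X → Products B X
  | prod {X Y Z : Sch k} (p : Z ⟶ X) (r : Z ⟶ Y) : IsProd p r → FT True Z → Products B X →
      Products B Y → Products B Z

/-- The members of `B`: schemes of dimension at most `D`, and smooth projective schemes with `Q`. -/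
def Base (Q : Sch k → Prop) (D : ℕ) (Y : Sch k) : Prop :=
  (FT True Y ∧ topologicalKrullDim Y.left ≤ D) ∨ (SmoothProjective Y ∧ Q Y)

/-- The subgroup of `K_0(Var_k)` generated by the classes of the smooth projective schemes with `Q`. -/
def goodGroup (Q : Sch k → Prop) : AddSubgroup (K0 k) :=
  AddSubgroup.closure {c | ∃ Y : Var k, SmoothProjective Y.1 ∧ Q Y.1 ∧ c = cls Y}

/-- The subgroup of `K_0(Var_k)` generated by the classes of all products of members of `Base Q D`. -/
def prodGroup (Q : Sch k → Prop) (D : ℕ) : AddSubgroup (K0 k) :=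
  AddSubgroup.closure {c | ∃ Z : Var k, Products (Base Q D) Z.1 ∧ c = cls Z}

/-- The classes of the schemes of dimension at most `D` are combinations of classes of smooth
projective schemes of dimension at most `D` (resolution of singularities). -/
def Resolves (k : Type) [Field k] (D : ℕ) : Prop :=
  ∀ Y : Var k, topologicalKrullDim Y.1.left ≤ D →
    cls Y ∈ goodGroup fun Z : Sch k => topologicalKrullDim Z.left ≤ D

/-- A smooth projective `X` has the property `Q` if and only if a multiple of its class is in the
group generated by the classes of the smooth projective schemes with `Q`. -/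
def Criterion (Q : Sch k → Prop) : Prop :=
  ∀ X : Var k, SmoothProjective X.1 → ∀ n : ℤ, n ≠ 0 → (Q X.1 ↔ n • cls X ∈ goodGroup Q)

/-- The property `Q` of smooth projective schemes depends only on the multiples of the class. -/
def Invariance (Q : Sch k → Prop) : Prop :=
  ∀ X X' : Var k, SmoothProjective X.1 → SmoothProjective X'.1 → ∀ n : ℤ, n ≠ 0 →
    n • cls X = n • cls X' → (Q X.1 ↔ Q X'.1)

/-- If `Q` is true in dimension at most `D` then for all smooth projective `X` such that a multiple of the class is
generated by products of schemes of dimension at most `D` and of smooth projective schemes with `Q`. -/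
def Generation (Q : Sch k → Prop) : Prop :=
  ∀ D : ℕ, Resolves k D →
    (∀ Y : Sch k, SmoothProjective Y → topologicalKrullDim Y.left ≤ D → Q Y) →
    ∀ X : Var k, SmoothProjective X.1 → ∀ n : ℤ, n ≠ 0 → n • cls X ∈ prodGroup Q D → Q X.1

end

end Pool.Agent.U483.KS
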