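import Pool.Agent.U483.KS.Main

/-!
# Classes generated by products of schemes
-/

set_option autoImplicit false

open CategoryTheory CategoryTheory.Limits AlgebraicGeometry Pool.Agent.Y116.UV
  Pool.Agent.U483.KM Pool.Agent.U483.GU Pool.Agent.U483.KP

namespace Pool.Agent.U483.KS

universe w x

variable {k : Type} [Field k] {Q : Sch k → Prop}

lemma self_mem {X : Var k} (h1 : SmoothProjective X.1) (h2 : Q X.1) : cls X ∈ goodGroup Q :=
  AddSubgroup.subset_closure ⟨X, h1, h2, rfl⟩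

lemma mulK_mem (hprod : ∀ {X Y : Sch k} (z : Prd X Y), SmoothProjective X →
    SmoothProjective Y → Q X → Q Y → SmoothProjective z.Z ∧ Q z.Z) {Y : Var k}
    (hY : cls Y ∈ goodGroup Q) {c : K0 k} (hc : c ∈ goodGroup Q) : mulK Y c ∈ goodGroup Q := by
  have h1 : ∀ X : Var k, SmoothProjective X.1 → Q X.1 → ∀ c ∈ goodGroup Q,
      mulK X c ∈ goodGroup Q := by
    intro X hX hQ c hc
    have h2 : goodGroup Q ≤ (goodGroup Q).comap (mulK X) := by
      refine (AddSubgroup.closure_le _).2 ?_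
      rintro _ ⟨W, hW, hQW, rfl⟩
      change mulK X (cls W) ∈ goodGroup Q
      rw [mulK_cls]
      obtain ⟨p, r, hp⟩ := prV_isProd W X
      obtain ⟨h3, h4⟩ := hprod ⟨_, p, r, hp⟩ hW hX hQW hQ
      exact self_mem h3 h4
    exact h2 hc
  have h2 : goodGroup Q ≤ (goodGroup Q).comap (mulK Y) := by
    refine (AddSubgroup.closure_le _).2 ?_
    rintro _ ⟨W, hW, hQW, rfl⟩
    change mulK Y (cls W) ∈ goodGroup Q
    rw [mulK_comm]
    exact h1 W hW hQW _ hY
  exact h2 hc

/-- The classes of products of schemes whose classes are generated by good ones are generated by good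
ones. -/
theorem products_mem (hprod : ∀ {X Y : Sch k} (z : Prd X Y), SmoothProjective X →
    SmoothProjective Y → Q X → Q Y → SmoothProjective z.Z ∧ Q z.Z)
    {B : Sch k → Prop} (hB : ∀ X : Sch k, B X → ∃ h : FT True X,
      cls (⟨X, h⟩ : Var k) ∈ goodGroup Q) {Z : Sch k} (hZ : Products B Z) :
    ∃ h : FT True Z, cls (⟨Z, h⟩ : Var k) ∈ goodGroup Q := by
  induction hZ with
  | base X hX => exact hB X hX
  | @prod X Y Z p r hp hf _ _ h1 h2 =>
    obtain ⟨f1, h1⟩ := h1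
    obtain ⟨f2, h2⟩ := h2
    refine ⟨hf, ?_⟩
    rw [cls_of_isProd (X := ⟨X, f1⟩) (Y := ⟨Y, f2⟩) (Z := ⟨Z, hf⟩) hp]
    exact mulK_mem hprod h2 h1

theorem products_base (hprod : ∀ {X Y : Sch k} (z : Prd X Y), SmoothProjective X →
    SmoothProjective Y → Q X → Q Y → SmoothProjective z.Z ∧ Q z.Z)
    {D : ℕ} (hres : Resolves k D)
    (hD : ∀ Y : Sch k, SmoothProjective Y → topologicalKrullDim Y.left ≤ D → Q Y) :
    prodGroup Q D ≤ goodGroup Q := by
  refine (AddSubgroup.closure_le _).2 ?_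
  rintro _ ⟨Z, hZ, rfl⟩
  refine (products_mem hprod (fun X hX => ?_) hZ).2
  rcases hX with ⟨h1, h2⟩ | ⟨h1, h2⟩
  · refine ⟨h1, ?_⟩
    refine AddSubgroup.closure_mono ?_ (hres ⟨X, h1⟩ h2)
    rintro _ ⟨W, hW, hd, rfl⟩
    exact ⟨W, hW, hD _ hW hd, rfl⟩
  · exact ⟨h1.ft, self_mem h1 h2⟩

/-- The three statements for thick classes of motives. -/
theorem main {F : Type} [Field F] {𝓜 : Type w} [Category.{x} 𝓜]
    [Preadditive 𝓜] [Linear F 𝓜] [HasBinaryBiproducts 𝓜] (H : PureMotives.{w, x} k F 𝓜)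
    {P : 𝓜 → Prop} (hP : IsThick P) (hz : ∃ C : 𝓜, IsZero C)
    (hprod : ∀ {X Y : Sch k} (z : Prd X Y), SmoothProjective X →
      SmoothProjective Y → P (H.h X) → P (H.h Y) → SmoothProjective z.Z ∧ P (H.h z.Z)) :
    Criterion (fun Y => P (H.h Y)) ∧ Invariance (fun Y => P (H.h Y)) ∧
      Generation fun Y => P (H.h Y) := by
  have key : ∀ (X : Var k), SmoothProjective X.1 → ∀ n : ℤ, n ≠ 0 →
      (P (H.h X.1) ↔ n • cls X ∈ goodGroup fun Y => P (H.h Y)) := by
    intro X hX n hn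
    refine ⟨fun h => ?_, fun h => mem_of_class H hP hz hX hn h⟩
    have h0 : cls X ∈ goodGroup fun Y => P (H.h Y) := self_mem hX h
    exact zsmul_mem h0 n
  refine ⟨key, fun X X' hX hX' n hn h => ?_, fun D hres hD X hX n hn h => ?_⟩
  · exact (key X hX n hn).trans (h ▸ (key X' hX' n hn).symm)
  · exact (key X hX n hn).2 (products_base hprod hres hD h)

end Pool.Agent.U483.KS
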